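import Pool.Agent.N311.SH.Stm

set_option autoImplicit false
open Set Metric Filter Topology MeasureTheory
open scoped OnePoint

namespace Pool.Agent.N562.SH

open Pool.Agent.N311.SH

namespace LOW

/-- extension by infinity of a proper family of homeomorphisms of the plane -/
lemma continuous_ext (k : unitInterval → (ℂ ≃ₜ ℂ))
    (hk : Continuous (fun p : unitInterval × ℂ => k p.1 p.2))
    (hp : ∀ M : ℝ, ∃ M' : ℝ, ∀ t z, M' < ‖z‖ → M < ‖k t z‖) :
    Continuous (fun p : unitInterval × Sph => ext (k p.1) p.2) := by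
  rw [continuous_iff_continuousAt]
  rintro ⟨t, x⟩
  induction x using OnePoint.rec with
  | infty =>
    show Tendsto _ (𝓝 (t, (∞ : Sph))) (𝓝 (ext (k t) ∞))
    rw [ext_infty, OnePoint.hasBasis_nhds_infty.tendsto_right_iff]
    intro s hs
    obtain ⟨M, hM⟩ := hs.2.isBounded.subset_closedBall (0 : ℂ)
    obtain ⟨M', hM'⟩ := hp M
    have hU : ((↑) '' (closedBall (0 : ℂ) M')ᶜ ∪ {(∞ : Sph)} : Set Sph) ∈ 𝓝 (∞ : Sph) :=
      OnePoint.hasBasis_nhds_infty.mem_of_mem ⟨isClosed_closedBall, isCompact_closedBall _ _⟩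
    rw [nhds_prod_eq]
    have := prod_mem_prod (univ_mem : (univ : Set unitInterval) ∈ 𝓝 t) hU
    filter_upwards [this]
    rintro ⟨t', y⟩ ⟨-, hy⟩
    rcases hy with ⟨z, hz, rfl⟩ | hy
    · left
      refine ⟨k t' z, ?_, rfl⟩
      intro hmem
      have h1 := hM hmem
      have h2 := hM' t' z (by simpa using hz)
      simp only [mem_closedBall, dist_zero_right] at h1
      linarith
    · right
      simp only [mem_singleton_iff] at hy
      simp [hy]
  | coe z =>
    have h1 : IsOpenEmbedding (Prod.map id (fun z : ℂ => (z : Sph)) : unitInterval × ℂ → _) :=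
      IsOpenEmbedding.prodMap .id OnePoint.isOpenEmbedding_coe
    have h2 := h1.continuousAt_iff (g := fun p : unitInterval × Sph => ext (k p.1) p.2) (x := (t, z))
    have h3 : ContinuousAt ((fun p : unitInterval × Sph => ext (k p.1) p.2) ∘
        (Prod.map id (fun z : ℂ => (z : Sph)))) (t, z) := by
      have : ((fun p : unitInterval × Sph => ext (k p.1) p.2) ∘
        (Prod.map id (fun z : ℂ => (z : Sph)))) =
          fun p : unitInterval × ℂ => ((k p.1 p.2 : ℂ) : Sph) := by
        ext p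
        rfl
      rw [this]
      exact (OnePoint.continuous_coe.comp hk).continuousAt
    exact h2.1 h3

lemma one_apply (x : Sph) : (1 : Sph ≃ₜ Sph) x = x := rfl

/-! ### the rotation -/

noncomputable def rot (t : unitInterval) : ℂ ≃ₜ ℂ :=
  Homeomorph.mulLeft₀ (Complex.exp (Real.pi * (t : ℝ) * Complex.I)) (Complex.exp_ne_zero _)

lemma rot_apply (t : unitInterval) (z : ℂ) :
    rot t z = Complex.exp (Real.pi * (t : ℝ) * Complex.I) * z := rfl

lemma norm_rot (t : unitInterval) (z : ℂ) : ‖rot t z‖ = ‖z‖ := by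
  rw [rot_apply, norm_mul]
  have : (Real.pi * (t : ℝ) * Complex.I : ℂ) = ((Real.pi * (t : ℝ) : ℝ) : ℂ) * Complex.I := by
    push_cast; ring
  rw [this, Complex.norm_exp_ofReal_mul_I, one_mul]

lemma rot_one (z : ℂ) : rot 1 z = -z := by
  rw [rot_apply]
  simp [Complex.exp_pi_mul_I]

lemma rot_zero (z : ℂ) : rot 0 z = z := by
  rw [rot_apply]
  simp

noncomputable def A : Sph ≃ₜ Sph := ext (rot 1)

lemma iso_A : Iso Sph A := by
  refine ⟨fun t => ext (rot t), ?_, ?_, rfl⟩
  · apply continuous_ext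
    · simp only [rot_apply]
      fun_prop
    · intro M
      exact ⟨M, fun t z hz => by rwa [norm_rot]⟩
  · ext x
    induction x using OnePoint.rec with
    | infty => rfl
    | coe z => rw [ext_coe, rot_zero]; rfl

lemma A_ne : A ≠ 1 := by
  intro h
  have := congrArg (fun g : Sph ≃ₜ Sph => g ((1 : ℂ) : Sph)) h
  simp only [A, ext_coe, rot_one, one_apply, OnePoint.coe_eq_coe] at this
  norm_num at this

lemma A_sq : A * A = 1 := by
  ext x
  induction x using OnePoint.rec with
  | infty => rfl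
  | coe z =>
    show A (A (z : Sph)) = (z : Sph)
    rw [A, ext_coe, ext_coe, rot_one, rot_one, neg_neg]

/-! ### the radial map -/

noncomputable def m (t r : ℝ) : ℝ := min 1 (1 + t / 2 - t / max r 1)
noncomputable def n (t s : ℝ) : ℝ := max 1 ((1 + t / max s (1 - t / 2)) / (1 + t / 2))

lemma m_small {t r : ℝ} (ht : 0 ≤ t) (hr : r ≤ 1) : m t r = 1 - t / 2 := by
  rw [m, max_eq_right hr, div_one, min_eq_right (by linarith)]
  ring

lemma m_mid {t r : ℝ} (ht : 0 ≤ t) (h1 : 1 ≤ r) (h2 : r ≤ 2) : m t r = 1 + t / 2 - t / r := by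
  rw [m, max_eq_left h1, min_eq_right]
  have : t / 2 ≤ t / r := div_le_div_of_nonneg_left ht (by linarith) h2
  linarith

lemma m_big {t r : ℝ} (ht : 0 ≤ t) (h2 : 2 ≤ r) : m t r = 1 := by
  rw [m, max_eq_left (by linarith), min_eq_left]
  have : t / r ≤ t / 2 := div_le_div_of_nonneg_left ht (by norm_num) h2
  linarith

lemma n_small {t s : ℝ} (ht : 0 ≤ t) (ht1 : t ≤ 1) (hs : s ≤ 1 - t / 2) :
    n t s = (1 - t / 2)⁻¹ := by
  rw [n, max_eq_right hs]
  have h0 : 0 < 1 - t / 2 := by linarith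
  have h1 : 0 < 1 + t / 2 := by linarith
  have h2 : (1 + t / (1 - t / 2)) / (1 + t / 2) = (1 - t / 2)⁻¹ := by
    have this := mul_inv_cancel₀ h0.ne'
    have e : 1 + t / (1 - t / 2) = (1 + t / 2) * (1 - t / 2)⁻¹ := by
      rw [div_eq_mul_inv]
      linear_combination -this
    rw [e, mul_div_cancel_left₀ _ h1.ne']
  rw [h2, max_eq_right]
  rw [one_le_inv₀ h0]
  linarith

lemma n_mid {t s : ℝ} (ht : 0 ≤ t) (ht1 : t ≤ 1) (h1 : 1 - t / 2 ≤ s) (h2 : s ≤ 2) :
    n t s = (1 + t / s) / (1 + t / 2) := by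
  rw [n, max_eq_left h1, max_eq_right]
  have h0 : 0 < s := by linarith
  have h3 : 0 < 1 + t / 2 := by linarith
  rw [le_div_iff₀ h3]
  have : t / 2 ≤ t / s := div_le_div_of_nonneg_left ht h0 h2
  linarith

lemma n_big {t s : ℝ} (ht : 0 ≤ t) (h2 : 2 ≤ s) : n t s = 1 := by
  rw [n, max_eq_left (show 1 - t / 2 ≤ s by linarith), max_eq_left]
  have h3 : 0 < 1 + t / 2 := by linarith
  rw [div_le_iff₀ h3]
  have : t / s ≤ t / 2 := div_le_div_of_nonneg_left ht (by norm_num) h2
  linarith

lemma m_ge {t r : ℝ} (ht : 0 ≤ t) (ht1 : t ≤ 1) : 1 / 2 ≤ m t r := by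
  rw [m]
  apply le_min (by norm_num)
  have : t / max r 1 ≤ t := div_le_self ht (le_max_right _ _)
  linarith

lemma n_ge (t s : ℝ) : 1 ≤ n t s := le_max_left _ _

lemma nm {t r : ℝ} (ht : 0 ≤ t) (ht1 : t ≤ 1) (hr : 0 ≤ r) : m t r * n t (r * m t r) = 1 := by
  have h0 : 0 < 1 - t / 2 := by linarith
  rcases le_total r 1 with h | h
  · rw [m_small ht h, n_small ht ht1 (by nlinarith)]
    exact mul_inv_cancel₀ h0.ne'
  · rcases le_total r 2 with h2 | h2
    · have hr0 : 0 < r := by linarith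
      have e : r * m t r = r * (1 + t / 2) - t := by
        rw [m_mid ht h h2]
        field_simp
      have hs1 : 1 - t / 2 ≤ r * m t r := by rw [e]; nlinarith
      have hs2 : r * m t r ≤ 2 := by rw [e]; nlinarith
      have hs0 : 0 < r * m t r := by linarith
      rw [n_mid ht ht1 hs1 hs2]
      have hm : m t r = (r * m t r) / r := by field_simp
      have h3 : 0 < 1 + t / 2 := by linarith
      have h4 : 1 + t / (r * m t r) = (r * (1 + t / 2)) / (r * m t r) := by
        rw [eq_div_iff hs0.ne', add_mul, div_mul_cancel₀ _ hs0.ne', one_mul, e]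
        ring
      rw [h4]
      have hm0 : m t r ≠ 0 := by
        intro h'
        rw [h', mul_zero] at hs0
        exact lt_irrefl _ hs0
      field_simp
    · rw [m_big ht h2, mul_one, n_big ht h2, mul_one]

lemma mn {t s : ℝ} (ht : 0 ≤ t) (ht1 : t ≤ 1) (hs : 0 ≤ s) : n t s * m t (s * n t s) = 1 := by
  have h0 : 0 < 1 - t / 2 := by linarith
  have h3 : 0 < 1 + t / 2 := by linarith
  rcases le_total s (1 - t / 2) with h | h
  · rw [n_small ht ht1 h, m_small ht]
    · exact inv_mul_cancel₀ h0.ne'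
    · rw [← div_eq_mul_inv, div_le_one h0]
      exact h
  · rcases le_total s 2 with h2 | h2
    · have hs0 : 0 < s := by linarith
      have e : s * n t s = (s + t) / (1 + t / 2) := by
        rw [n_mid ht ht1 h h2]
        field_simp
      have hr1 : 1 ≤ s * n t s := by
        rw [e, le_div_iff₀ h3]; linarith
      have hr2 : s * n t s ≤ 2 := by
        rw [e, div_le_iff₀ h3]; linarith
      rw [m_mid ht hr1 hr2, e, n_mid ht ht1 h h2]
      have h5 : 0 < s + t := by linarith
      have h6 : (2 + t) ≠ 0 := by linarith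
      field_simp
      ring
    · rw [n_big ht h2, mul_one, m_big ht h2, mul_one]

lemma norm_mul_real (z : ℂ) {a : ℝ} (ha : 0 ≤ a) : ‖z * (a : ℂ)‖ = ‖z‖ * a := by
  rw [norm_mul, Complex.norm_real, Real.norm_of_nonneg ha]

lemma cont_m : Continuous (fun p : ℝ × ℝ => m p.1 p.2) := by
  unfold m
  refine continuous_const.min (Continuous.sub (by fun_prop) (Continuous.div (by fun_prop) (by fun_prop) ?_))
  intro p
  exact (lt_of_lt_of_le one_pos (le_max_right _ _)).ne'

lemma cont_n {t : ℝ} (ht : 0 ≤ t) (ht1 : t ≤ 1) : Continuous (fun s : ℝ => n t s) := by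
  unfold n
  refine continuous_const.max (Continuous.div_const (Continuous.add continuous_const
    (Continuous.div (by fun_prop) (by fun_prop) ?_)) _)
  intro p
  exact (lt_of_lt_of_le (by linarith : 0 < 1 - t / 2) (le_max_right _ _)).ne'

noncomputable def rad (t : unitInterval) : ℂ ≃ₜ ℂ where
  toFun z := z * ((m t ‖z‖ : ℝ) : ℂ)
  invFun z := z * ((n t ‖z‖ : ℝ) : ℂ)
  left_inv z := by
    have h := nm t.2.1 t.2.2 (norm_nonneg z)
    simp only
    rw [norm_mul_real z (by linarith [m_ge t.2.1 t.2.2 (r := ‖z‖)]), mul_assoc,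
      ← Complex.ofReal_mul, h, Complex.ofReal_one, mul_one]
  right_inv z := by
    have h := mn t.2.1 t.2.2 (norm_nonneg z)
    simp only
    rw [norm_mul_real z (by linarith [n_ge t ‖z‖]), mul_assoc,
      ← Complex.ofReal_mul, h, Complex.ofReal_one, mul_one]
  continuous_toFun := by
    have : Continuous (fun z : ℂ => m t ‖z‖) :=
      cont_m.comp (continuous_const.prodMk continuous_norm)
    exact continuous_id.mul (Complex.continuous_ofReal.comp this)
  continuous_invFun := by
    have : Continuous (fun z : ℂ => n t ‖z‖) := (cont_n t.2.1 t.2.2).comp continuous_norm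
    exact continuous_id.mul (Complex.continuous_ofReal.comp this)

lemma rad_apply (t : unitInterval) (z : ℂ) : rad t z = z * ((m t ‖z‖ : ℝ) : ℂ) := rfl
lemma rad_symm (t : unitInterval) (z : ℂ) : (rad t).symm z = z * ((n t ‖z‖ : ℝ) : ℂ) := rfl

noncomputable def B : Sph ≃ₜ Sph := ext (rad 1)

lemma iso_B : Iso Sph B := by
  refine ⟨fun t => ext (rad t), ?_, ?_, rfl⟩
  · apply continuous_ext
    · simp only [rad_apply]
      have : Continuous (fun p : unitInterval × ℂ => m p.1 ‖p.2‖) :=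
        cont_m.comp (f := fun p : unitInterval × ℂ => ((p.1 : ℝ), ‖p.2‖)) (by fun_prop)
      exact continuous_snd.mul (Complex.continuous_ofReal.comp this)
    · intro M
      refine ⟨2 * M, fun t z hz => ?_⟩
      have h := m_ge t.2.1 t.2.2 (r := ‖z‖)
      rw [rad_apply, norm_mul_real z (by linarith)]
      nlinarith [norm_nonneg z]
  · ext x
    induction x using OnePoint.rec with
    | infty => rfl
    | coe z =>
      rw [ext_coe, rad_apply]
      have : m ((0 : unitInterval) : ℝ) ‖z‖ = 1 := by simp [m]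
      rw [this]
      simp

lemma B_small {z : ℂ} (hz : ‖z‖ ≤ 1) : B (z : Sph) = ((z / 2 : ℂ) : Sph) := by
  rw [B, ext_coe, rad_apply]
  have : m ((1 : unitInterval) : ℝ) ‖z‖ = 1 / 2 := by
    rw [Set.Icc.coe_one, m_small (by norm_num) hz]; norm_num
  rw [this]
  congr 1
  push_cast
  ring

lemma B_ne : B ≠ 1 := by
  intro h
  have := congrArg (fun g : Sph ≃ₜ Sph => g ((1 : ℂ) : Sph)) h
  simp only [one_apply] at this
  rw [B_small (by simp)] at this
  rw [OnePoint.coe_eq_coe] at this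
  norm_num at this

lemma B_sq : B * B ≠ 1 := by
  intro h
  have := congrArg (fun g : Sph ≃ₜ Sph => g ((1 : ℂ) : Sph)) h
  simp only [one_apply] at this
  change B (B ((1 : ℂ) : Sph)) = ((1 : ℂ) : Sph) at this
  rw [B_small (by simp), B_small (by simp; norm_num)] at this
  rw [OnePoint.coe_eq_coe] at this
  norm_num at this

/-- there is an attracting point -/
def Phi (g : Sph ≃ₜ Sph) : Prop :=
  ∃ x : Sph, ∃ N ∈ 𝓝 x, ∀ y ∈ N, Tendsto (fun k : ℕ => (g ^ k) y) atTop (𝓝 x)

lemma conj_pow (H g : Sph ≃ₜ Sph) (k : ℕ) : (H * g * H⁻¹) ^ k = H * g ^ k * H⁻¹ := by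
  induction k with
  | zero => simp
  | succ k ih => rw [pow_succ, ih, pow_succ]; group

lemma Phi_conj {g : Sph ≃ₜ Sph} (hg : Phi g) (H : Sph ≃ₜ Sph) : Phi (H * g * H⁻¹) := by
  obtain ⟨x, N, hN, h⟩ := hg
  refine ⟨H x, (H⁻¹ : Sph ≃ₜ Sph) ⁻¹' N, ?_, ?_⟩
  · apply (H⁻¹ : Sph ≃ₜ Sph).continuous.continuousAt.preimage_mem_nhds
    have : (H⁻¹ : Sph ≃ₜ Sph) (H x) = x := H.symm_apply_apply x
    rw [this]
    exact hN
  · intro y hy
    have := h _ hy
    have h2 := (H.continuous.tendsto x).comp this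
    refine h2.congr fun k => ?_
    rw [conj_pow]
    rfl

lemma Phi_B : Phi B := by
  refine ⟨((0 : ℂ) : Sph), (fun z : ℂ => (z : Sph)) '' ball 0 1, ?_, ?_⟩
  · exact (OnePoint.isOpenEmbedding_coe.isOpenMap _ isOpen_ball).mem_nhds
      ⟨0, mem_ball_self one_pos, rfl⟩
  · rintro _ ⟨z, hz, rfl⟩
    have hz' : ‖z‖ < 1 := by simpa using hz
    have key : ∀ k : ℕ, (B ^ k) (z : Sph) = ((z / 2 ^ k : ℂ) : Sph) ∧ ‖z / 2 ^ k‖ ≤ 1 := by
      intro k
      induction k with
      | zero => simpa using hz'.le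
      | succ k ih =>
        constructor
        · rw [pow_succ']
          show B ((B ^ k) (z : Sph)) = _
          rw [ih.1, B_small ih.2]
          congr 1
          rw [pow_succ]
          ring
        · have : z / 2 ^ (k + 1) = (z / 2 ^ k) / 2 := by rw [pow_succ]; ring
          rw [this, norm_div]
          simp only [Complex.norm_ofNat]
          linarith [ih.2]
    have : (fun k : ℕ => (B ^ k) (z : Sph)) = fun k : ℕ => ((z / 2 ^ k : ℂ) : Sph) := by
      funext k
      exact (key k).1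
    show Tendsto (fun k : ℕ => (B ^ k) (z : Sph)) atTop _
    rw [this]
    refine (OnePoint.continuous_coe.tendsto (0 : ℂ)).comp ?_
    have h1 : Tendsto (fun k : ℕ => z * ((1 / 2 : ℂ)) ^ k) atTop (𝓝 (z * 0)) :=
      (tendsto_pow_atTop_nhds_zero_of_norm_lt_one (by norm_num)).const_mul z
    rw [mul_zero] at h1
    refine h1.congr fun k => ?_
    rw [one_div, inv_pow, div_eq_mul_inv]

lemma Binv_coe (z : ℂ) : B⁻¹ (z : Sph) = ((z * ((n 1 ‖z‖ : ℝ) : ℂ) : ℂ) : Sph) := by
  rw [B, ext_inv_coe, rad_symm]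
  simp

lemma Binv_big {z : ℂ} (hz : 2 ≤ ‖z‖) (k : ℕ) : ((B⁻¹) ^ k) (z : Sph) = (z : Sph) := by
  induction k with
  | zero => rfl
  | succ k ih =>
    rw [pow_succ']
    show B⁻¹ (((B⁻¹) ^ k) (z : Sph)) = _
    rw [ih, Binv_coe, n_big (by norm_num) hz]
    simp

lemma Binv_norm (z : ℂ) (k : ℕ) :
    ∃ w : ℂ, ((B⁻¹) ^ k) (z : Sph) = (w : Sph) ∧ ‖z‖ ≤ ‖w‖ := by
  induction k with
  | zero => exact ⟨z, rfl, le_rfl⟩
  | succ k ih =>
    obtain ⟨w, hw, hle⟩ := ih
    refine ⟨w * ((n 1 ‖w‖ : ℝ) : ℂ), ?_, ?_⟩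
    · rw [pow_succ']
      show B⁻¹ (((B⁻¹) ^ k) (z : Sph)) = _
      rw [hw, Binv_coe]
    · have h1 := n_ge 1 ‖w‖
      rw [norm_mul_real w (by linarith)]
      nlinarith [norm_nonneg w]

lemma not_Phi : ¬ Phi (B⁻¹) := by
  rintro ⟨x, N, hN, h⟩
  have fixed : ∀ y ∈ N, (∀ k : ℕ, ((B⁻¹) ^ k) y = y) → y = x := by
    intro y hy hf
    have h1 := h y hy
    simp only [hf] at h1
    exact tendsto_nhds_unique tendsto_const_nhds h1
  induction x using OnePoint.rec with
  | infty =>
    have h1 : (fun z : ℂ => (z : Sph)) ⁻¹' N ∈ cocompact ℂ := by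
      have := OnePoint.tendsto_coe_infty (X := ℂ)
      rw [coclosedCompact_eq_cocompact] at this
      exact this hN
    have h2 : {z : ℂ | 2 ≤ ‖z‖} ∈ cocompact ℂ :=
      (tendsto_norm_cocompact_atTop (E := ℂ)).eventually (eventually_ge_atTop 2)
    obtain ⟨w, hw1, hw2⟩ := (cocompact ℂ).nonempty_of_mem (inter_mem h1 h2)
    exact OnePoint.coe_ne_infty w (fixed _ hw1 (Binv_big hw2))
  | coe z =>
    have hpre : (fun z : ℂ => (z : Sph)) ⁻¹' N ∈ 𝓝 z :=
      OnePoint.continuous_coe.continuousAt.preimage_mem_nhds hN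
    rcases le_or_gt 2 ‖z‖ with hz | hz
    · have ht : Tendsto (fun ε : ℝ => ((1 + ε : ℝ) : ℂ) * z) (𝓝[>] 0) (𝓝 z) := by
        have : Tendsto (fun ε : ℝ => ((1 + ε : ℝ) : ℂ) * z) (𝓝 0) (𝓝 (((1 + 0 : ℝ) : ℂ) * z)) := by
          apply Continuous.tendsto
          fun_prop
        simp only [add_zero, Complex.ofReal_one, one_mul] at this
        exact this.mono_left nhdsWithin_le_nhds
      obtain ⟨ε, h1, h2⟩ := ((ht.eventually hpre).and self_mem_nhdsWithin).exists
      have hε : (0 : ℝ) < ε := h2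
      have hn : ‖((1 + ε : ℝ) : ℂ) * z‖ = (1 + ε) * ‖z‖ := by
        rw [norm_mul, Complex.norm_real, Real.norm_of_nonneg (by linarith)]
      have := fixed _ h1 (Binv_big (by rw [hn]; nlinarith))
      rw [OnePoint.coe_eq_coe] at this
      have h3 := congrArg norm this
      rw [hn] at h3
      nlinarith
    · by_cases h0 : z = 0
      · subst h0
        have ht : Tendsto (fun ε : ℝ => ((ε : ℝ) : ℂ)) (𝓝[>] 0) (𝓝 0) := by
          have : Tendsto (fun ε : ℝ => ((ε : ℝ) : ℂ)) (𝓝 0) (𝓝 ((0 : ℝ) : ℂ)) :=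
            Complex.continuous_ofReal.tendsto _
          rw [Complex.ofReal_zero] at this
          exact this.mono_left nhdsWithin_le_nhds
        obtain ⟨ε, h1, h2⟩ := ((ht.eventually hpre).and self_mem_nhdsWithin).exists
        have hε : (0 : ℝ) < ε := h2
        have h3 := h _ h1
        have hO : (fun z : ℂ => (z : Sph)) '' ball 0 ε ∈ 𝓝 ((0 : ℂ) : Sph) :=
          (OnePoint.isOpenEmbedding_coe.isOpenMap _ isOpen_ball).mem_nhds
            ⟨0, mem_ball_self hε, rfl⟩
        obtain ⟨k, hk⟩ := (h3.eventually hO).exists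
        obtain ⟨w, hw, hle⟩ := Binv_norm (ε : ℂ) k
        obtain ⟨w', hw', he⟩ := hk
        simp only at he
        rw [hw] at he
        rw [OnePoint.coe_eq_coe] at he
        rw [he] at hw'
        simp only [mem_ball, dist_zero_right] at hw'
        rw [Complex.norm_real, Real.norm_of_nonneg hε.le] at hle
        linarith
      · have h3 := h _ (mem_of_mem_nhds hN)
        have h4 : Tendsto (fun k : ℕ => ((B⁻¹) ^ (k + 1)) (z : Sph)) atTop (𝓝 (z : Sph)) :=
          h3.comp (tendsto_add_atTop_nat 1)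
        have h5 : Tendsto (fun k : ℕ => ((B⁻¹) ^ (k + 1)) (z : Sph)) atTop (𝓝 (B⁻¹ (z : Sph))) := by
          have := ((B⁻¹ : Sph ≃ₜ Sph).continuous.tendsto _).comp h3
          refine this.congr fun k => ?_
          rw [pow_succ']
          rfl
        have h6 : B⁻¹ (z : Sph) = (z : Sph) := tendsto_nhds_unique h5 h4
        rw [Binv_coe, OnePoint.coe_eq_coe] at h6
        have h7 : n 1 ‖z‖ = 1 := by
          have : ((n 1 ‖z‖ : ℝ) : ℂ) = 1 := by
            have := mul_left_cancel₀ h0 (h6.trans (mul_one z).symm)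
            exact this
          exact_mod_cast this
        rcases le_total ‖z‖ (1 - 1 / 2) with h8 | h8
        · rw [n_small (by norm_num) le_rfl h8] at h7
          norm_num at h7
        · rw [n_mid (by norm_num) le_rfl h8 hz.le] at h7
          have h9 : 0 < ‖z‖ := by linarith
          rw [div_eq_one_iff_eq (by norm_num)] at h7
          have : 1 / ‖z‖ = 1 / 2 := by linarith
          have := (one_div_one_div ‖z‖).symm.trans (congrArg (fun x => 1 / x) this)
          norm_num at this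
          linarith

lemma not_conj (H : Sph ≃ₜ Sph) : H * B * H⁻¹ ≠ B⁻¹ := by
  intro h
  exact not_Phi (h ▸ Phi_conj Phi_B H)

end LOW

theorem low : S_LOW :=
  ⟨LOW.A, LOW.B, LOW.iso_A, LOW.iso_B, LOW.A_ne, LOW.A_sq, LOW.B_ne, LOW.B_sq, LOW.not_conj⟩

end Pool.Agent.N562.SH
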